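import Pool.Agent.U133.RRT.Ine
import Pool.Agent.U133.RRT.Fb
import Pool.Agent.U133.RRT.Goo
import Pool.Agent.U133.RRT.Prs

set_option autoImplicit false

/-!
# Almost all Riemann-Roch pairs up to a stretched exponential height are split

Let `E` be a complex vector bundle of rank two on `ℙ^n` with the Chern classes `c₁`, `c₂`. The theorem
of Riemann-Roch gives the Riemann-Roch (Schwarzenberger) conditions for the polynomial
`T² - c₁ T + c₂`. They hold for the classes `a + b`, `a b` of the direct sums of two line bundles.

For every `ε > 0`, all `n ≥ n₀(ε)` and all heights `1 ≤ H ≤ exp (n ^ (1/3 - ε))`, at most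
`H² / n ^ (2 √e - ε)` pairs of integers with `|c₁| ≤ H`, `|c₂| ≤ H²` satisfy the Riemann-Roch
conditions and are not of the form `c₁ = a + b`, `c₂ = a b`. (There are at least a constant times `H²`
pairs of this form in this range.) The earlier result `FewExceptionalClasses` has the range
`H ≤ n ^ A` with a constant `A`.

The proof. The discriminant `D = c₁² - 4 c₂` is a square modulo all primes `p < n`. By the inequality of
Polya and Vinogradov the second moment of the sum of the symbols `(f / m)` over the squarefree parts `f` of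
the possible `D`, where `m` runs over the products of `B` primes `< n` with `B` growing with the height,
shows that for `log X ≤ n ^ θ` there are at most `X ^ κ` classes of such integers modulo squares
for `|f| ≤ X`, where `κ > θ / (1 - θ)`. For `θ < 1/3` this is smaller than `X ^ (1/2)`, and the sum over dyadic ranges of
`|f|` converges. The small `f` are treated by the bound of Burgess: if `|f| ≤ n ^ (4 √e - ε)` is not a
square, then the product of the primes `p < n` with `(f / p) = -1` is at least `n ^ 12` and divides `s`
for every discriminant `f s²`.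
-/

namespace Pool.Agent.Results.MP_b01859_ag.AlmostAllSplitExp

open Pool.Agent.R920.CH Pool.Agent.U133.RRT Pool.Agent.T2H32.RRT

/-- **Almost all Riemann-Roch pairs of height at most `exp (n ^ (1/3 - ε))` are split.** -/
theorem result (ε : ℝ) (hε : 0 < ε) : ∃ n₀ : ℕ, ∀ n ≥ n₀, ∀ H : ℝ, 1 ≤ H →
    H ≤ Real.exp ((n : ℝ) ^ (1 / 3 - ε)) → ∀ S : Finset (ℤ × ℤ),
      (∀ c ∈ S, |(c.1 : ℝ)| ≤ H ∧ |(c.2 : ℝ)| ≤ H ^ 2 ∧ RiemannRoch n (poly2 c.1 c.2) ∧
        ¬ ∃ a b : ℤ, c.1 = a + b ∧ c.2 = a * b) →
      (S.card : ℝ) ≤ H ^ 2 / (n : ℝ) ^ (2 * Real.exp (1 / 2) - ε) :=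
  Filter.eventually_atTop.mp (PRS_main (CNT_main (FA_main PV_main INE_main)
    (FB_main PV_main INE_main) GOO_main SMA_main) ε hε)

end Pool.Agent.Results.MP_b01859_ag.AlmostAllSplitExp
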