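import Pool.Agent.U449.BV.Q
import Pool.Agent.Results.MP_b01859_ag.FewExceptionalClasses

/-!
# Bundles of rank two: the discriminants near the values of polynomials on arbitrary sets

Let `p` be a prime and `f(x, y)` ANY polynomial modulo `p` of degree at most `d` with a monomial which contains both variables (for
example `f = x y`), let `A`, `B` be ARBITRARY sets of residues modulo `p`, `g`, `h` ARBITRARY functions, `1 ≤ W ≤ p` and `p ≤ n ^ A₀`, where
`A₀` is arbitrary and `n` is large. For all but `Θ |A| |B|` of the pairs `(a, b)` in `A × B`, where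
`Θ ^ 2 = d (√p / |A| + W √p / |B|) / n ^ (2 √e - ε)`, ALL pairs `(c₁, c₂)` of integers with a discriminant `c₁ ^ 2 - 4 c₂` at a distance of at
most `W` from the least residue of `f(a, b) + g(a) + h(b)` which satisfy the Riemann-Roch conditions on `ℙ^n` (for example the Chern
classes of all bundles of rank two) have a discriminant which is a square, so they are `c₁ = a + b`, `c₂ = a b`, the classes of a sum of
two line bundles. The sets may be sparse: this holds for almost all pairs `(a, b)` if `A` and `B` have at least `√p / n ^ (2 √e - 2 ε)` and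
`W √p / n ^ (2 √e - 2 ε)` elements.

More generally, this holds for all functions `F(a, b)` with few coincidences (`Rare`). Since the sets and the functions `g` and `h` are
arbitrary, the values have no arithmetic structure, and a value may be taken by very many pairs. So the number of the exceptional
discriminants (starting result `FewExceptionalClasses`: at most `√X / n ^ (2 √e - ε)` up to `X`) does not give the result directly. Proof: the
inequality of Cauchy and Schwarz; for most pairs `a, a'` the difference `F(a, b) - F(a', b)` is small for few `b`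
(`Pool.Agent.U449.BV`).
-/

set_option autoImplicit false

namespace Pool.Agent.Results.MP_b01859_ag.MixedOnDenseSets

open Finset
open Pool.Agent.U449.BV (Rare dense_window residues)
open Pool.Agent.R920.CH (RiemannRoch poly2)

/-- There are integers `c₁`, `c₂` which satisfy the Riemann-Roch conditions on the projective space of dimension `n`, such that the
discriminant `c₁ ^ 2 - 4 c₂` is not a square, and `|c₁ ^ 2 - 4 c₂ - x| ≤ W`. -/
def NearException (n : ℕ) (W x : ℝ) : Prop :=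
  ∃ c₁ c₂ : ℤ, RiemannRoch n (poly2 c₁ c₂) ∧ ¬ IsSquare (c₁ ^ 2 - 4 * c₂) ∧ |((c₁ ^ 2 - 4 * c₂ : ℤ) : ℝ) - x| ≤ W

/-- **Theorem.** Let `A₀` and `ε > 0` be given, let `n` be sufficiently large, and `1 ≤ W ≤ X ≤ n ^ A₀`. For all functions `F(a, b)`
with few coincidences (`Rare`), bounded by `X`, on arbitrary finite sets `A`, `B`, the number of the pairs `(a, b)` for which there is an
exceptional discriminant near `F(a, b)` is at most `Θ |A| |B|`, `Θ ^ 2 = d (√X / |A| + W √X / |B|) / n ^ (2 √e - ε)`.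
The least residues modulo `p` of `f(a, b) + g(a) + h(b)` are such a function, bounded by `X = p`, for all primes `p`, all
polynomials `f` modulo `p` with a monomial which contains both variables, arbitrary functions `g` and `h`, and arbitrary sets of
residues. -/
theorem result :
    (∀ A₀ ε : ℝ, 0 < ε → ∃ n₀ : ℕ, ∀ n : ℕ, n₀ ≤ n → ∀ X W : ℝ, 1 ≤ W → W ≤ X → X ≤ (n : ℝ) ^ A₀ → ∀ (d : ℕ) (α β : Type)
      (A : Finset α) (B : Finset β) (F : α → β → ℝ), (∀ a ∈ A, ∀ b ∈ B, |F a b| ≤ X) → Rare d A B F →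
      ({z : α × β | z.1 ∈ A ∧ z.2 ∈ B ∧ NearException n W (F z.1 z.2)}.ncard : ℝ) ^ 2 ≤
        d * (√X / A.card + W * √X / B.card) / (n : ℝ) ^ (2 * Real.exp (1 / 2) - ε) * ((A.card : ℝ) * B.card) ^ 2) ∧
    ∀ (p : ℕ) [Fact p.Prime] (d : ℕ) (f : MvPolynomial (Fin 2) (ZMod p)), f.totalDegree ≤ d →
      (∃ m ∈ f.support, m 0 ≠ 0 ∧ m 1 ≠ 0) → ∀ (g h : ZMod p → ZMod p) (A B : Finset (ZMod p)),
        Rare d A B (fun a b => (((MvPolynomial.eval ![a, b] f + g a + h b).val : ℕ) : ℝ)) := by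
  classical
  refine ⟨fun A₀ ε hε => ?_, residues⟩
  obtain ⟨n₀, h⟩ := FewExceptionalClasses.result (A₀ + 1) (ε / 2) (by linarith)
  obtain ⟨n₁, hn₁⟩ := ((tendsto_rpow_atTop (y := ε / 2) (by linarith)).comp
    tendsto_natCast_atTop_atTop).eventually_ge_atTop (56 : ℝ) |>.exists_forall_of_atTop
  refine ⟨max (max n₀ n₁) 2, fun n hn X W hW hWX hX d α β A B F hF hR => ?_⟩
  have hn0 : n₀ ≤ n := (le_max_left _ _).trans ((le_max_left _ _).trans hn)
  have hn1 : 56 ≤ (n : ℝ) ^ (ε / 2) := hn₁ n ((le_max_right _ _).trans ((le_max_left _ _).trans hn))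
  have hn2 : (2 : ℝ) ≤ n := by exact_mod_cast (le_max_right _ _).trans hn
  have hnp : (0 : ℝ) < n := by linarith
  have hX1 : 1 ≤ X := hW.trans hWX
  have hX0 : 0 < X := by linarith
  have h2X : 2 * X ≤ (n : ℝ) ^ (A₀ + 1) := by
    rw [Real.rpow_add hnp, Real.rpow_one]
    have h1 : 0 ≤ (n : ℝ) ^ A₀ := (Real.rpow_pos_of_pos hnp _).le
    nlinarith
  obtain ⟨S, hS⟩ : ∃ S : Set ℤ, S = {D : ℤ | |(D : ℝ)| ≤ 2 * X ∧ ¬ IsSquare D ∧
    ∃ c₁ c₂ : ℤ, RiemannRoch n (poly2 c₁ c₂) ∧ c₁ ^ 2 - 4 * c₂ = D} := ⟨_, rfl⟩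
  have hSf : {t : ℤ | t ∈ S ∧ (t : ℝ) ≤ 2 * X}.Finite := by
    refine (Set.finite_Icc (-⌊2 * X⌋) ⌊2 * X⌋).subset fun t ht => ?_
    have h1 := ht.1
    rw [hS] at h1
    have h2 := abs_le.1 h1.1
    refine ⟨?_, Int.le_floor.2 h2.2⟩
    rw [neg_le, Int.le_floor]
    push_cast
    linarith
  have h1 := (h n hn0).1 (2 * X) (by linarith) h2X hSf.toFinset (by
    intro D hD
    have h1 := ((hSf.mem_toFinset).1 hD).1
    rw [hS] at h1
    exact h1)
  have h2 := dense_window (T := ℤ) (fun t => (t : ℝ)) S hW hWX (√(2 * X) / (n : ℝ) ^ (2 * Real.exp (1 / 2) - ε / 2))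
    ⟨hSf, by rw [Set.ncard_eq_toFinset_card _ hSf]; exact h1⟩ hF hR
  have h3 : {z : α × β | z.1 ∈ A ∧ z.2 ∈ B ∧ NearException n W (F z.1 z.2)} ⊆
      {z : α × β | z.1 ∈ A ∧ z.2 ∈ B ∧ ∃ t ∈ S, |(t : ℝ) - F z.1 z.2| ≤ W} := by
    rintro z ⟨hA, hB, c₁, c₂, h4, h5, h6⟩
    refine ⟨hA, hB, c₁ ^ 2 - 4 * c₂, ?_, h6⟩
    rw [hS]
    refine ⟨?_, h5, c₁, c₂, h4, rfl⟩
    have h7 := hF z.1 hA z.2 hB
    rw [abs_le] at h6 h7 ⊢
    constructor <;> linarith [h6.1, h6.2, h7.1, h7.2]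
  have h4 : ({z : α × β | z.1 ∈ A ∧ z.2 ∈ B ∧ NearException n W (F z.1 z.2)}.ncard : ℝ) ^ 2 ≤
      ({z : α × β | z.1 ∈ A ∧ z.2 ∈ B ∧ ∃ t ∈ S, |(t : ℝ) - F z.1 z.2| ≤ W}.ncard : ℝ) ^ 2 := by
    refine pow_le_pow_left₀ (Nat.cast_nonneg _) (Nat.cast_le.2 (Set.ncard_le_ncard h3 ?_)) 2
    apply (A ×ˢ B).finite_toSet.subset
    rintro z ⟨h1, h2, -⟩
    rw [mem_coe, mem_product]
    exact ⟨h1, h2⟩
  refine h4.trans (h2.trans ?_)
  apply mul_le_mul_of_nonneg_right _ (by positivity)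
  have h5 : √(2 * X) ≤ 2 * √X := by
    rw [show (2 : ℝ) * √X = √(4 * X) by
      rw [Real.sqrt_mul (by norm_num), show (4 : ℝ) = 2 ^ 2 by norm_num, Real.sqrt_sq (by norm_num)]]
    exact Real.sqrt_le_sqrt (by linarith)
  have h6 : (n : ℝ) ^ (2 * Real.exp (1 / 2) - ε / 2) = (n : ℝ) ^ (2 * Real.exp (1 / 2) - ε) * (n : ℝ) ^ (ε / 2) := by
    rw [← Real.rpow_add hnp]
    congr 1
    ring
  have h7 : 0 < (n : ℝ) ^ (2 * Real.exp (1 / 2) - ε) := Real.rpow_pos_of_pos hnp _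
  have h8 : 0 < (n : ℝ) ^ (ε / 2) := by linarith
  have h9 : √(2 * X) / (n : ℝ) ^ (2 * Real.exp (1 / 2) - ε / 2) ≤
      √X / (28 * (n : ℝ) ^ (2 * Real.exp (1 / 2) - ε)) := by
    rw [h6, div_le_div_iff₀ (by positivity) (by positivity)]
    have h10 : 0 ≤ √X := Real.sqrt_nonneg _
    calc √(2 * X) * (28 * (n : ℝ) ^ (2 * Real.exp (1 / 2) - ε)) ≤
        (2 * √X) * (28 * (n : ℝ) ^ (2 * Real.exp (1 / 2) - ε)) := mul_le_mul_of_nonneg_right h5 (by positivity)
      _ = √X * ((n : ℝ) ^ (2 * Real.exp (1 / 2) - ε) * 56) := by ring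
      _ ≤ √X * ((n : ℝ) ^ (2 * Real.exp (1 / 2) - ε) * (n : ℝ) ^ (ε / 2)) := by gcongr
  have hAB : 0 ≤ 1 / (A.card : ℝ) + W / B.card := by positivity
  calc 28 * (d : ℝ) * (√(2 * X) / (n : ℝ) ^ (2 * Real.exp (1 / 2) - ε / 2)) * (1 / A.card + W / B.card) ≤
      28 * (d : ℝ) * (√X / (28 * (n : ℝ) ^ (2 * Real.exp (1 / 2) - ε))) * (1 / A.card + W / B.card) := by gcongr
    _ = d * (√X / A.card + W * √X / B.card) / (n : ℝ) ^ (2 * Real.exp (1 / 2) - ε) := by
      field_simp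

end Pool.Agent.Results.MP_b01859_ag.MixedOnDenseSets
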