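import Pool.Agent.U133.RRT.Dom

set_option autoImplicit false

/-!
# At exponential height the non-split Riemann-Roch pairs dominate

Let `E` be a complex vector bundle of rank two on `ℙ^n` with the Chern classes `c₁`, `c₂`. The theorem
of Riemann-Roch gives the Riemann-Roch (Schwarzenberger) conditions for the polynomial
`T² - c₁ T + c₂`. They hold for the classes `a + b`, `a b` of the direct sums of two line bundles.

For every `0 < δ ≤ 1`, all `n ≥ n₀(δ)` and all heights `H ≥ 2 ^ ((1 + δ) π(n))`, where `π(n)` is the number of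
the primes `p ≤ n`, there are at least `H ^ (3 - δ) / 2 ^ π(n)` pairs of integers with `|c₁| ≤ H`, `|c₂| ≤ H²` which satisfy
the Riemann-Roch conditions and are not of the form `c₁ = a + b`, `c₂ = a b`, and they are more than the pairs
of this form in the same range by a factor of at least `H ^ (δ / 4)`. So the Riemann-Roch conditions, which show that
almost all pairs of height at most `exp (n ^ (1/3 - ε))` are split (`AlmostAllSplitExp`), cannot show this at
the height `exp (C n / log n)`.

The proof. By the pigeon hole principle many pairs of primes `q, q' > n` have the same residue modulo `8` and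
the same quadratic characters modulo all primes `p ≤ n`; then `D = q q'` is a square modulo `4 n!`. If `D` is a square modulo
`4 n!` and `c₁` is odd, then `c₁`, `c₂ = (c₁² - D) / 4` satisfy the Riemann-Roch conditions for `ℙ^n`.
-/

namespace Pool.Agent.Results.MP_b01859_ag.NonSplitDominate

open Pool.Agent.R920.CH Pool.Agent.U133.RRT Pool.Agent.T2H32.RRT

/-- **The non-split Riemann-Roch pairs of height at least `2 ^ ((1 + δ) π(n))` dominate.** -/
theorem result (δ : ℝ) (hδ : 0 < δ) (hδ1 : δ ≤ 1) : ∃ n₀ : ℕ, ∀ n ≥ n₀, ∀ H : ℝ,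
    (2 : ℝ) ^ ((1 + δ) * (Nat.primeCounting n : ℝ)) ≤ H → ∃ S : Finset (ℤ × ℤ),
      (∀ c ∈ S, |(c.1 : ℝ)| ≤ H ∧ |(c.2 : ℝ)| ≤ H ^ 2 ∧
        RiemannRoch n (poly2 c.1 c.2) ∧ ¬ ∃ a b : ℤ, c.1 = a + b ∧ c.2 = a * b) ∧
      H ^ (3 - δ) / (2 : ℝ) ^ (Nat.primeCounting n : ℝ) ≤ S.card ∧
      ∀ T : Finset (ℤ × ℤ), (∀ c ∈ T, |(c.1 : ℝ)| ≤ H ∧ |(c.2 : ℝ)| ≤ H ^ 2 ∧
        ∃ a b : ℤ, c.1 = a + b ∧ c.2 = a * b) → H ^ (δ / 4) * T.card ≤ S.card :=
  Filter.eventually_atTop.mp (dominate (LOW_main LOC_main SQR_main PIG_main) δ hδ hδ1)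

end Pool.Agent.Results.MP_b01859_ag.NonSplitDominate
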