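import Pool.Agent.W615.Y11

/-!
# Symmetric pairs `(E, s)` on `P^n`, `n ≥ 7`, whose zero scheme is smooth at the fixed points

Let `E` be a vector bundle of rank two on `P^n`, `n ≥ 7` (all the dimensions of the question), and let `s`
be a section of a twist of `E` such that the pair `(E, s)` has an infinitesimal symmetry: a non-scalar
linear vector field `x ↦ A x` lifts to an operator `D` on the sections of the twists of `E`, with
`D s = μ s`. If the scheme of zeros of `s` is smooth of codimension two at all those of its points which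
are fixed by the symmetry (the eigenvectors of `A`), then `E` splits. There is no condition on the other
points of the zero scheme, on the degree of `s` and on the eigenvalues of `A`.

The starting result `PartlySmooth` needs `n ≥ 8`, or five independent intermediate eigenvectors; here
the case `n = 7` is complete. The theorem is `symmetric_main` of the starting library
(`Pool/Agent/W615/Y11.lean`), which was not used by a result.
-/

set_option autoImplicit false

namespace Pool.Agent.Results.MP_b01859_ag.SmoothAtFixedPoints

open MvPolynomial H960VB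

/-- the vectors of polynomials -/
abbrev Vec {n : ℕ} (E : Bundle2 n) : Type := Fin E.a → MvPolynomial (Fin (n + 1)) ℂ

/-- the derivative of `p` in the direction of the linear vector field `x ↦ A x` -/
noncomputable def along {n : ℕ} (A : Matrix (Fin (n + 1)) (Fin (n + 1)) ℂ)
    (p : MvPolynomial (Fin (n + 1)) ℂ) : MvPolynomial (Fin (n + 1)) ℂ :=
  ∑ s, pderiv s p * (∑ t, C (A s t) * X t)

/-- `D` is a lift to `E` of the vector field `x ↦ A x`: an operator on the sections of the twists
`E(d)`, `d ∈ ℤ`, which preserves `d`, is additive and satisfies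
`D (p G) = A(p) G + p D G` for all homogeneous polynomials `p`. -/
structure IsLift {n : ℕ} (E : Bundle2 n) (A : Matrix (Fin (n + 1)) (Fin (n + 1)) ℂ)
    (D : Vec E → Vec E) : Prop where
  sec : ∀ d G, E.IsSection d G → E.IsSection d (D G)
  add : ∀ d G G', E.IsSection d G → E.IsSection d G' → D (G + G') = D G + D G'
  leib : ∀ d e p G, E.IsSection d G → HomZ p e → D (p • G) = along A p • G + p • D G

/-- `x` is an eigenvector of `A`: the point `[x]` of `P^n` is fixed by the vector field -/
def Fixed {n : ℕ} (A : Matrix (Fin (n + 1)) (Fin (n + 1)) ℂ) (x : Fin (n + 1) → ℂ) : Prop :=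
  x ≠ 0 ∧ ∃ v : ℂ, A.mulVec x = v • x

/-- the derivative of the vector `s` with respect to `x_l`, at the point `x` -/
noncomputable def dv {n : ℕ} {E : Bundle2 n} (s : Vec E) (x : Fin (n + 1) → ℂ)
    (l : Fin (n + 1)) : Fin E.a → ℂ := fun i => eval x (pderiv l (s i))

/-- the derivative of `s` at `x` has rank at least two; if `s` vanishes at `x`, the scheme of zeros
of `s` is then smooth of codimension two at `x`. -/
def SmoothAt {n : ℕ} {E : Bundle2 n} (s : Vec E) (x : Fin (n + 1) → ℂ) : Prop :=
  ∃ l l', LinearIndependent ℂ ![dv s x l, dv s x l']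

/-- **Theorem.** A vector bundle of rank two on `P^n`, `n ≥ 7`, splits if some section `s` of a twist is
an eigenvector of an infinitesimal symmetry of `E` and the scheme of zeros of `s` is smooth of codimension
two at the zeros of `s` which are fixed by the symmetry. -/
theorem result {n : ℕ} (hn : 7 ≤ n) (E : Bundle2 n)
    (A : Matrix (Fin (n + 1)) (Fin (n + 1)) ℂ) (hA : ∀ c : ℂ, A ≠ c • 1) (D : Vec E → Vec E)
    (hD : IsLift E A D) (d : ℤ) (s : Vec E) (hs : E.IsSection d s) (μ : ℂ) (hμ : D s = μ • s)
    (hsm : ∀ z : Fin (n + 1) → ℂ, Fixed A z → evv s z = 0 → SmoothAt s z) : E.Splits := by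
  have hiff : ∀ x, SmoothAt s x ↔ Pool.Agent.W615.SmoothAt s x := by
    intro x
    constructor
    · rintro ⟨l, l', h⟩
      rw [H938TB.T3aux.li_iff] at h
      obtain ⟨i, i', h⟩ := h
      exact ⟨l, l', i, i', h⟩
    · rintro ⟨l, l', i, i', h⟩
      exact ⟨l, l', (H938TB.T3aux.li_iff _ _).2 ⟨i, i', h⟩⟩
  have hs' := Pool.Agent.W615.sec_of_isSection hs
  have hl : (Pool.Agent.W615.mkOp D hD.sec hD.add hD.leib).D s = fun i => C μ * s i := by
    show D s = fun i => C μ * s i
    rw [hμ]
    funext i
    rw [Pi.smul_apply, smul_eq_C_mul]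
  exact Pool.Agent.W615.symmetric_main hn (Pool.Agent.W615.mkOp D hD.sec hD.add hD.leib) hA hs' hl
    fun x hx h0 hv => (hiff x).1 (hsm x ⟨hx, hv⟩ h0)

end Pool.Agent.Results.MP_b01859_ag.SmoothAtFixedPoints
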